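import Pool.Agent.Y706.SB.Stm

/-!
# Not all critical points are close to a bounded point (project SB, job KK)
-/

set_option autoImplicit false

namespace Pool.Agent.Y614.SB

open Polynomial
open Pool.Agent.Y706.SB

universe w

section

variable {K : Type w} [Field K] {p : ℕ} {o : K → ℤ}

/-- order at least `m` -/
def GE (o : K → ℤ) (m : ℝ) (x : K) : Prop := x ≠ 0 → m ≤ (o x : ℝ)

/-- order greater than `m` -/
def GT (o : K → ℤ) (m : ℝ) (x : K) : Prop := x ≠ 0 → m < (o x : ℝ)

theorem o_one (h : Vl p o) (hp : 1 < p) : o 1 = 0 := by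
  have := (h.nat 1 one_pos hp).2
  rwa [Nat.cast_one] at this

theorem o_neg_one (h : Vl p o) (hp : 1 < p) : o (-1) = 0 := by
  have h1 := h.mul (-1) (-1) (neg_ne_zero.2 one_ne_zero) (neg_ne_zero.2 one_ne_zero)
  rw [neg_mul_neg, one_mul, o_one h hp] at h1
  omega

theorem o_neg (h : Vl p o) (hp : 1 < p) {x : K} (hx : x ≠ 0) : o (-x) = o x := by
  rw [← neg_one_mul, h.mul _ _ (neg_ne_zero.2 one_ne_zero) hx, o_neg_one h hp, zero_add]

theorem GT.ge {m : ℝ} {x : K} (hx : GT o m x) : GE o m x := fun h => (hx h).le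

theorem GE.mono {m n : ℝ} {x : K} (hx : GE o m x) (hmn : n ≤ m) : GE o n x :=
  fun h => hmn.trans (hx h)

theorem GT.mono {m n : ℝ} {x : K} (hx : GT o m x) (hmn : n ≤ m) : GT o n x :=
  fun h => lt_of_le_of_lt hmn (hx h)

theorem GE.gt {m n : ℝ} {x : K} (hx : GE o m x) (hmn : n < m) : GT o n x :=
  fun h => lt_of_lt_of_le hmn (hx h)

theorem GE.zero (m : ℝ) : GE o m (0 : K) := fun h => absurd rfl h

theorem GT.zero (m : ℝ) : GT o m (0 : K) := fun h => absurd rfl h

theorem GE.add (h : Vl p o) {m : ℝ} {x y : K} (hx : GE o m x) (hy : GE o m y) :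
    GE o m (x + y) := by
  intro hxy
  by_cases hx0 : x = 0
  · subst hx0
    rw [zero_add] at hxy ⊢
    exact hy hxy
  by_cases hy0 : y = 0
  · subst hy0
    rw [add_zero] at hxy ⊢
    exact hx hxy
  have h1 := h.add x y (min (o x) (o y)) hx0 hy0 hxy (min_le_left _ _) (min_le_right _ _)
  have h2 : ((min (o x) (o y) : ℤ) : ℝ) ≤ (o (x + y) : ℝ) := by exact_mod_cast h1
  refine le_trans ?_ h2
  rw [Int.cast_min]
  exact le_min (hx hx0) (hy hy0)

theorem GT.add (h : Vl p o) {m : ℝ} {x y : K} (hx : GT o m x) (hy : GT o m y) :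
    GT o m (x + y) := by
  intro hxy
  by_cases hx0 : x = 0
  · subst hx0
    rw [zero_add] at hxy ⊢
    exact hy hxy
  by_cases hy0 : y = 0
  · subst hy0
    rw [add_zero] at hxy ⊢
    exact hx hxy
  have h1 := h.add x y (min (o x) (o y)) hx0 hy0 hxy (min_le_left _ _) (min_le_right _ _)
  have h2 : ((min (o x) (o y) : ℤ) : ℝ) ≤ (o (x + y) : ℝ) := by exact_mod_cast h1
  refine lt_of_lt_of_le ?_ h2
  rw [Int.cast_min]
  exact lt_min (hx hx0) (hy hy0)

theorem GE.neg (h : Vl p o) (hp : 1 < p) {m : ℝ} {x : K} (hx : GE o m x) : GE o m (-x) := by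
  intro h0
  have hx0 : x ≠ 0 := fun h1 => h0 (by rw [h1, neg_zero])
  rw [o_neg h hp hx0]
  exact hx hx0

theorem GT.neg (h : Vl p o) (hp : 1 < p) {m : ℝ} {x : K} (hx : GT o m x) : GT o m (-x) := by
  intro h0
  have hx0 : x ≠ 0 := fun h1 => h0 (by rw [h1, neg_zero])
  rw [o_neg h hp hx0]
  exact hx hx0

theorem GE.sub (h : Vl p o) (hp : 1 < p) {m : ℝ} {x y : K} (hx : GE o m x) (hy : GE o m y) :
    GE o m (x - y) := by
  rw [sub_eq_add_neg]
  exact hx.add h (hy.neg h hp)

theorem GT.sub (h : Vl p o) (hp : 1 < p) {m : ℝ} {x y : K} (hx : GT o m x) (hy : GT o m y) :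
    GT o m (x - y) := by
  rw [sub_eq_add_neg]
  exact hx.add h (hy.neg h hp)

theorem GT.sum (h : Vl p o) {ι : Type} (s : Finset ι) {m : ℝ} {f : ι → K}
    (hf : ∀ i ∈ s, GT o m (f i)) : GT o m (∑ i ∈ s, f i) := by
  classical
  induction s using Finset.induction_on with
  | empty => rw [Finset.sum_empty]; exact GT.zero m
  | insert a s ha ih =>
    rw [Finset.sum_insert ha]
    exact (hf a (Finset.mem_insert_self _ _)).add h
      (ih fun i hi => hf i (Finset.mem_insert_of_mem hi))

theorem GE.mul (h : Vl p o) {m n : ℝ} {x y : K} (hx : GE o m x) (hy : GE o n y) :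
    GE o (m + n) (x * y) := by
  intro h0
  have hx0 : x ≠ 0 := left_ne_zero_of_mul h0
  have hy0 : y ≠ 0 := right_ne_zero_of_mul h0
  rw [h.mul x y hx0 hy0]
  push_cast
  exact add_le_add (hx hx0) (hy hy0)

theorem GE.mul_gt (h : Vl p o) {m n : ℝ} {x y : K} (hx : GE o m x) (hy : GT o n y) :
    GT o (m + n) (x * y) := by
  intro h0
  have hx0 : x ≠ 0 := left_ne_zero_of_mul h0
  have hy0 : y ≠ 0 := right_ne_zero_of_mul h0
  rw [h.mul x y hx0 hy0]
  push_cast
  exact add_lt_add_of_le_of_lt (hx hx0) (hy hy0)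

theorem GE.one (h : Vl p o) (hp : 1 < p) : GE o 0 (1 : K) := by
  intro _
  rw [o_one h hp]
  simp

theorem GE.nat (h : Vl p o) (hp : 1 < p) (n : ℕ) : GE o 0 (n : K) := by
  induction n with
  | zero => rw [Nat.cast_zero]; exact GE.zero 0
  | succ n ih => rw [Nat.cast_succ]; exact ih.add h (GE.one h hp)

theorem GE.pow (h : Vl p o) (hp : 1 < p) {m : ℝ} {x : K} (hx : GE o m x) (n : ℕ) :
    GE o (n * m) (x ^ n) := by
  induction n with
  | zero => rw [pow_zero, Nat.cast_zero, zero_mul]; exact GE.one h hp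
  | succ n ih =>
    rw [pow_succ]
    refine (ih.mul h hx).mono (le_of_eq ?_)
    push_cast
    ring

theorem GT.pow (h : Vl p o) (hp : 1 < p) {m : ℝ} {x : K} (hx : GT o m x) (n : ℕ) (hn : 1 ≤ n) :
    GT o (n * m) (x ^ n) := by
  obtain ⟨k, rfl⟩ : ∃ k, n = k + 1 := ⟨n - 1, by omega⟩
  rw [pow_succ]
  refine ((hx.ge.pow h hp k).mul_gt h hx).mono (le_of_eq ?_)
  push_cast
  ring

end

/-- The values of the Hasse derivatives. -/
theorem eval_hasse {K : Type w} [Field K] (g : K[X]) (d j : ℕ) (z : K) (hg : g.natDegree ≤ d) :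
    (hasseDeriv j g).eval z =
      ∑ i ∈ Finset.range (d + 1), (i.choose j : K) * g.coeff i * z ^ (i - j) := by
  rw [hasseDeriv_apply, g.sum_over_range' (fun n => by simp) (d + 1) (by omega), eval_finsetSum]
  apply Finset.sum_congr rfl
  intro i _
  rw [eval_monomial]

/-- The job. -/
theorem t_KK : S_KK.{w} := by
  intro p K _ o h f d hfd hd hdp V t ht hVt hA _ hor h0 h1 y hy hfy
  by_contra hcon
  push Not at hcon
  have hp : 1 < p := by omega
  have hd' : (2 : ℝ) ≤ d := by exact_mod_cast hd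
  set A := f.leadingCoeff with hAdef
  have hf0 : f ≠ 0 := by
    rintro rfl
    rw [natDegree_zero] at hfd
    omega
  have hA0 : A ≠ 0 := leadingCoeff_ne_zero.2 hf0
  set R : ℝ := t - V with hR
  have hR0 : 0 ≤ R := by linarith
  set g : K[X] := f - X with hg
  have hgd : g.natDegree ≤ d := by
    rw [hg]
    refine (natDegree_sub_le _ _).trans ?_
    rw [natDegree_X, hfd]
    omega
  have hgA : g.coeff d = A := by
    rw [hg, coeff_sub, coeff_X, if_neg (by omega), sub_zero, hAdef, leadingCoeff, hfd]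
  set e : ℕ → K := fun i => (taylor y g).coeff i with he
  have he' : ∀ i, e i = (hasseDeriv i g).eval y := fun i => taylor_coeff _ _ _
  -- the values of the Taylor coefficients
  have heR : ∀ i < d, GT o ((o A : ℝ) - ((d : ℝ) - i) * R) (e i) := by
    intro i hi
    rw [he', hg, map_sub, eval_sub]
    rcases Nat.lt_or_ge i 2 with hi2 | hi2
    · interval_cases i
      · rw [hasseDeriv_zero', hasseDeriv_zero', eval_X]
        have h2 : GE o (V - t) (f.eval y - y) := GE.sub h hp (fun hh => hfy hh) (fun hh => hy hh)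
        refine h2.gt ?_
        push_cast
        nlinarith
      · have h2 : GT o ((o A : ℝ) - ((d : ℝ) - (1 : ℕ)) * R) ((hasseDeriv 1 f).eval y) := by
          intro hh
          exact hcon 1 le_rfl hi hh
        have h3 : GT o ((o A : ℝ) - ((d : ℝ) - (1 : ℕ)) * R) ((hasseDeriv 1 (X : K[X])).eval y) := by
          rw [hasseDeriv_one', derivative_X, eval_one]
          refine (GE.one h hp).gt ?_
          push_cast
          nlinarith
        exact GT.sub h hp h2 h3
    · rw [hasseDeriv_X (hk := (by omega : 1 < i)), eval_zero, sub_zero]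
      intro hh
      exact hcon i (by omega) hi hh
  have hed : e d = A := by
    rw [he', eval_hasse g d d y hgd, Finset.sum_range_succ, Finset.sum_eq_zero, zero_add, Nat.choose_self,
      Nat.cast_one, one_mul, Nat.sub_self, pow_zero, mul_one, hgA]
    intro i hi
    rw [Nat.choose_eq_zero_of_lt (Finset.mem_range.1 hi), Nat.cast_zero, zero_mul, zero_mul]
  -- the coefficients
  have hb : ∀ j, g.coeff j = ∑ i ∈ Finset.range d, (i.choose j : K) * e i * (-y) ^ (i - j) +
      (d.choose j : K) * A * (-y) ^ (d - j) := by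
    intro j
    have h2 : g = taylor (-y) (taylor y g) := by
      rw [taylor_taylor, neg_add_cancel, taylor_zero]
    conv_lhs => rw [h2]
    rw [taylor_coeff, eval_hasse (taylor y g) d j (-y) (by rw [natDegree_taylor]; exact hgd),
      Finset.sum_range_succ]
    change _ + (d.choose j : K) * e d * (-y) ^ (d - j) = _
    rw [hed]
  have hy' : GE o (-R) (-y) := by
    apply GE.neg h hp
    intro hh
    have := hy hh
    rw [hR]
    linarith
  have hrest : ∀ j < d, GT o ((o A : ℝ) - ((d : ℝ) - j) * R)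
      (∑ i ∈ Finset.range d, (i.choose j : K) * e i * (-y) ^ (i - j)) := by
    intro j _
    apply GT.sum h
    intro i hi
    rw [Finset.mem_range] at hi
    rcases Nat.lt_or_ge i j with hij | hij
    · rw [Nat.choose_eq_zero_of_lt hij, Nat.cast_zero, zero_mul, zero_mul]
      exact GT.zero _
    · have h2 := ((GE.nat h hp (i.choose j)).mul_gt h (heR i hi))
      have h3 := (hy'.pow h hp (i - j)).mul_gt h h2
      rw [mul_comm ((-y) ^ (i - j))] at h3
      refine h3.mono (le_of_eq ?_)
      rw [Nat.cast_sub hij]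
      ring
  by_cases hcase : y ≠ 0 ∧ (o y : ℝ) = V - t
  · -- Case 2
    obtain ⟨hy0, hoy⟩ := hcase
    have hny0 : -y ≠ 0 := neg_ne_zero.2 hy0
    have hopow : ∀ n : ℕ, (o ((-y) ^ n) : ℝ) = n * (V - t) := by
      intro n
      induction n with
      | zero => rw [pow_zero, o_one h hp]; simp
      | succ n ih =>
        rw [pow_succ, h.mul _ _ (pow_ne_zero _ hny0) hny0, o_neg h hp hy0]
        push_cast
        rw [ih, hoy]
        ring
    have hb0 := hb 0
    have hg0 : g.coeff 0 = f.eval 0 := by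
      rw [hg, coeff_sub, coeff_X_zero, sub_zero, coeff_zero_eq_eval_zero]
    rw [hg0, Nat.choose_zero_right, Nat.cast_one, one_mul, Nat.sub_zero] at hb0
    have h2 : GT o ((o A : ℝ) - (d : ℝ) * R) (f.eval 0) := by
      refine GE.gt (m := V - t) (fun hh => h0 hh) ?_
      nlinarith
    have h3 := hrest 0 (by omega)
    rw [Nat.cast_zero, sub_zero] at h3
    have h4 : GT o ((o A : ℝ) - (d : ℝ) * R) (A * (-y) ^ d) := by
      have h5 := GT.sub h hp h2 h3
      rw [hb0, add_sub_cancel_left] at h5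
      exact h5
    have h6 := h4 (mul_ne_zero hA0 (pow_ne_zero _ hny0))
    rw [h.mul _ _ hA0 (pow_ne_zero _ hny0)] at h6
    push_cast at h6
    rw [hopow] at h6
    rw [hR] at h6
    linarith
  · -- Case 1
    have hys : GT o (-R) (-y) := by
      intro hh
      have hy0 : y ≠ 0 := fun h1 => hh (by rw [h1, neg_zero])
      rw [o_neg h hp hy0]
      have h2 := hy hy0
      have h3 : (o y : ℝ) ≠ V - t := fun h4 => hcase ⟨hy0, h4⟩
      have h4 := lt_of_le_of_ne h2 (Ne.symm h3)
      rw [hR]
      linarith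
    have hbj : ∀ j < d, GT o ((o A : ℝ) - ((d : ℝ) - j) * R) (g.coeff j) := by
      intro j hj
      rw [hb j]
      apply GT.add h (hrest j hj)
      have h2 : GE o ((o A : ℝ)) A := fun _ => le_rfl
      have h3 := (((GE.nat h hp (d.choose j)).mul h h2)).mul_gt h
        (hys.pow h hp (d - j) (by omega))
      refine h3.mono (le_of_eq ?_)
      rw [Nat.cast_sub hj.le]
      ring
    have htV : t = V := by
      rcases hor with hor | ⟨i, hi, hi0, hi1⟩
      · exact hor
      · exfalso
        have := hbj i hi hi0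
        linarith
    have hR00 : R = 0 := by rw [hR, htV, sub_self]
    have hAneg : (o A : ℝ) < 0 := by
      rw [htV] at ht
      nlinarith
    have hg1 : g.eval 1 = ∑ j ∈ Finset.range d, g.coeff j + A := by
      rw [eval_eq_sum_range' (by omega : g.natDegree < d + 1), Finset.sum_range_succ, hgA, one_pow,
        mul_one]
      congr 1
      apply Finset.sum_congr rfl
      intro i _
      rw [one_pow, mul_one]
    have hg1' : g.eval 1 = f.eval 1 - 1 := by
      rw [hg, eval_sub, eval_X]
    have h2 : GT o (o A : ℝ) (∑ j ∈ Finset.range d, g.coeff j) := by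
      apply GT.sum h
      intro j hj
      have := hbj j (Finset.mem_range.1 hj)
      rw [hR00, mul_zero, sub_zero] at this
      exact this
    have h3 : GT o (o A : ℝ) (f.eval 1) := by
      refine GE.gt (m := V - t) (fun hh => h1 hh) ?_
      rw [htV, sub_self]
      exact hAneg
    have h4 : GT o (o A : ℝ) (1 : K) := (GE.one h hp).gt hAneg
    have h5 : GT o (o A : ℝ) A := by
      have h6 := GT.sub h hp (GT.sub h hp h3 h4) h2
      rw [← hg1', hg1, add_sub_cancel_left] at h6
      exact h6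
    exact lt_irrefl _ (h5 hA0)

end Pool.Agent.Y614.SB
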